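import Pool.Agent.Helper65.KPZ.St

/-! # Project KP, module ZSU: Veronese and half plane. -/

set_option autoImplicit false

namespace Pool.Agent.Helper34.KPZ

open Pool.Agent.Helper65.KPZ

universe u

section

variable {A : Type u} [CommRing A] [Algebra ℂ A]

section General

variable {Λ : Type} [AddCommMonoid Λ] {F : Λ → Submodule ℂ A} {hF : Mult F}

/-- The support of `x` satisfies `T`. -/
def Sp (T : Λ → Prop) (x : gr F hF) : Prop :=
  ∀ p, (x : AddMonoidAlgebra A Λ).coeff p ≠ 0 → T p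

theorem Sp_mul {T T' T'' : Λ → Prop} (h : ∀ p q, T p → T' q → T'' (p + q)) {x y : gr F hF}
    (hx : Sp T x) (hy : Sp T' y) : Sp T'' (x * y) := by
  classical
  intro p hp
  by_contra hcon
  apply hp
  rw [MulMemClass.coe_mul, AddMonoidAlgebra.coeff_mul]
  refine Finset.sum_eq_zero fun i hi => Finset.sum_eq_zero fun j hj => ?_
  dsimp only
  split_ifs with hij
  · exfalso
    apply hcon
    rw [← hij]
    exact h i j (hx i (Finsupp.mem_support_iff.1 hi)) (hy j (Finsupp.mem_support_iff.1 hj))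
  · rfl

theorem Sp_mono {T T' : Λ → Prop} (h : ∀ p, T p → T' p) {x : gr F hF} (hx : Sp T x) : Sp T' x :=
  fun p hp => h p (hx p hp)

theorem Sp_zero (T : Λ → Prop) : Sp T (0 : gr F hF) := by
  intro p hp
  exact absurd (by simp) hp

theorem Sp_add {T : Λ → Prop} {x y : gr F hF} (hx : Sp T x) (hy : Sp T y) : Sp T (x + y) := by
  intro p hp
  by_contra hcon
  apply hp
  have h1 : (x : AddMonoidAlgebra A Λ).coeff p = 0 := by
    by_contra h
    exact hcon (hx p h)
  have h2 : (y : AddMonoidAlgebra A Λ).coeff p = 0 := by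
    by_contra h
    exact hcon (hy p h)
  rw [AddMemClass.coe_add, AddMonoidAlgebra.coeff_add, Finsupp.add_apply, h1, h2, add_zero]

theorem Sp_neg {T : Λ → Prop} {x : gr F hF} (hx : Sp T x) : Sp T (-x) := by
  intro p hp
  apply hx p
  intro h
  apply hp
  rw [NegMemClass.coe_neg, AddMonoidAlgebra.coeff_neg, Finsupp.neg_apply, h, neg_zero]

theorem Sp_sub {T : Λ → Prop} {x y : gr F hF} (hx : Sp T x) (hy : Sp T y) : Sp T (x - y) := by
  rw [sub_eq_add_neg]
  exact Sp_add hx (Sp_neg hy)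

theorem Sp_sum {ι : Type} {T : Λ → Prop} (s : Finset ι) (f : ι → gr F hF)
    (h : ∀ i ∈ s, Sp T (f i)) : Sp T (∑ i ∈ s, f i) := by
  classical
  induction s using Finset.induction_on with
  | empty => rw [Finset.sum_empty]; exact Sp_zero T
  | insert a s ha ih =>
    rw [Finset.sum_insert ha]
    exact Sp_add (h a (Finset.mem_insert_self a s))
      (ih fun i hi => h i (Finset.mem_insert_of_mem hi))

theorem Sp_one {T : Λ → Prop} (h : T 0) : Sp T (1 : gr F hF) := by
  classical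
  intro p hp
  rw [OneMemClass.coe_one, AddMonoidAlgebra.one_def, AddMonoidAlgebra.coeff_single,
    Finsupp.single_apply] at hp
  split_ifs at hp with h0
  · rwa [← h0]
  · exact absurd rfl hp

theorem Sp_disj {T T' : Λ → Prop} {x : gr F hF} (hx : Sp T x) (hx' : Sp T' x)
    (h : ∀ p, T p → T' p → False) : x = 0 := by
  apply Subtype.ext
  ext p
  by_contra hcon
  exact h p (hx p hcon) (hx' p hcon)

open Classical in
/-- The part of `x` in `T`. -/
noncomputable def filt (T : Λ → Prop) (x : gr F hF) : gr F hF :=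
  ⟨AddMonoidAlgebra.ofCoeff ((x : AddMonoidAlgebra A Λ).coeff.filter T), by
    intro a
    change ((x : AddMonoidAlgebra A Λ).coeff.filter T) a ∈ F a
    rw [Finsupp.filter_apply]
    split_ifs
    · exact x.2 a
    · exact zero_mem _⟩

open Classical in
theorem filt_coeff (T : Λ → Prop) (x : gr F hF) (p : Λ) :
    (filt T x : AddMonoidAlgebra A Λ).coeff p
      = if T p then (x : AddMonoidAlgebra A Λ).coeff p else 0 := by
  change ((x : AddMonoidAlgebra A Λ).coeff.filter T) p = _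
  rw [Finsupp.filter_apply]

theorem filt_sp (T : Λ → Prop) (x : gr F hF) : Sp T (filt T x) := by
  classical
  intro p hp
  rw [filt_coeff] at hp
  by_contra h
  exact hp (if_neg h)

theorem filt_sp' (T T' : Λ → Prop) {x : gr F hF} (hx : Sp T' x) : Sp T' (filt T x) := by
  classical
  intro p hp
  apply hx p
  rw [filt_coeff] at hp
  intro h
  apply hp
  rw [h, ite_self]

theorem filt_sub_sp (T : Λ → Prop) (x : gr F hF) : Sp (fun p => ¬ T p) (x - filt T x) := by
  classical
  intro p hp h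
  apply hp
  rw [AddSubgroupClass.coe_sub, AddMonoidAlgebra.coeff_sub, Finsupp.sub_apply, filt_coeff, if_pos h,
    sub_self]

end General

/-- The embedding of the indices. -/
def jj (M c : ℕ) : ℕ × ℕ →+ ℕ × ℤ where
  toFun p := (M * p.1, (p.2 : ℤ) - c * p.1)
  map_zero' := by simp
  map_add' := by
    intro p q
    simp only [Prod.fst_add, Prod.snd_add, Prod.mk_add_mk, Nat.cast_add]
    refine Prod.ext ?_ ?_
    · simp only; ring
    · simp only; ring

theorem jj_apply (M c : ℕ) (p : ℕ × ℕ) : jj M c p = (M * p.1, (p.2 : ℤ) - c * p.1) := rfl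

theorem jj_inj {M : ℕ} (c : ℕ) (hM : 0 < M) : Function.Injective (jj M c) := by
  rintro ⟨k, l⟩ ⟨k', l'⟩ h
  rw [jj_apply, jj_apply, Prod.mk.injEq] at h
  have h1 : k = k' := Nat.eq_of_mul_eq_mul_left hM h.1
  subst h1
  have h2 : (l : ℤ) = l' := by
    have := h.2
    simpa using this
  rw [Nat.cast_inj.1 h2]

/-- The weight. -/
def tt (M c : ℕ) (p : ℕ × ℤ) : ℤ := p.2 + c * (p.1 / M : ℕ)

theorem tt_add {M : ℕ} (c : ℕ) {p q : ℕ × ℤ} (hp : M ∣ p.1) :
    tt M c (p + q) = tt M c p + tt M c q := by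
  unfold tt
  rw [Prod.fst_add, Prod.snd_add, Nat.add_div_of_dvd_right hp]
  push_cast
  ring

theorem mem_range_jj {M : ℕ} (c : ℕ) (hM : 0 < M) {p : ℕ × ℤ} (hp : M ∣ p.1) (ht : 0 ≤ tt M c p) :
    p ∈ Set.range (jj M c) := by
  obtain ⟨K, L⟩ := p
  obtain ⟨k, rfl⟩ : ∃ k, K = M * k := hp
  unfold tt at ht
  rw [Nat.mul_div_cancel_left k hM] at ht
  refine ⟨(k, (L + c * k).toNat), ?_⟩
  rw [jj_apply]
  refine Prod.ext rfl ?_
  simp only
  rw [Int.toNat_of_nonneg ht]
  ring

theorem jj_dvd (M c : ℕ) (p : ℕ × ℕ) : M ∣ (jj M c p).1 := ⟨p.1, rfl⟩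

theorem tt_jj {M : ℕ} (c : ℕ) (hM : 0 < M) (p : ℕ × ℕ) : 0 ≤ tt M c (jj M c p) := by
  unfold tt
  rw [jj_apply]
  simp only
  rw [Nat.mul_div_cancel_left p.1 hM]
  have : (0 : ℤ) ≤ p.2 := Int.natCast_nonneg _
  linarith

section Main

variable (F : ℕ → ℤ → Submodule ℂ A) (hF : Mult (ful F)) (M c : ℕ) (hF' : Mult (shf F M c))

/-- The homomorphism of the big algebras. -/
noncomputable def ph : AddMonoidAlgebra A (ℕ × ℕ) →+* AddMonoidAlgebra A (ℕ × ℤ) :=
  AddMonoidAlgebra.mapDomainRingHom A (jj M c)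

variable {M} in
theorem ph_coeff (hM : 0 < M) (x : AddMonoidAlgebra A (ℕ × ℕ)) (p : ℕ × ℕ) :
    (ph (A := A) M c x).coeff (jj M c p) = x.coeff p := by
  change (Finsupp.mapDomain (jj M c) x.coeff) (jj M c p) = _
  exact Finsupp.mapDomain_apply (jj_inj c hM) _ _

theorem ph_coeff' (x : AddMonoidAlgebra A (ℕ × ℕ)) (p : ℕ × ℤ) (hp : p ∉ Set.range (jj M c)) :
    (ph (A := A) M c x).coeff p = 0 := by
  change (Finsupp.mapDomain (jj M c) x.coeff) p = _
  exact Finsupp.mapDomain_notin_range _ _ hp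

variable {M} in
theorem ph_mem (hM : 0 < M) (x : gr (shf F M c) hF') :
    ph (A := A) M c (x : AddMonoidAlgebra A (ℕ × ℕ)) ∈ gr (ful F) hF := by
  intro p
  by_cases hp : p ∈ Set.range (jj M c)
  · obtain ⟨q, rfl⟩ := hp
    rw [ph_coeff c hM]
    exact x.2 q
  · rw [ph_coeff' M c _ p hp]
    exact zero_mem _

variable {M} in
/-- The embedding of the algebras. -/
noncomputable def io (hM : 0 < M) : gr (shf F M c) hF' →+* gr (ful F) hF :=
  ((ph (A := A) M c).comp (gr (shf F M c) hF').val.toRingHom).codRestrict (gr (ful F) hF)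
    (ph_mem F hF c hF' hM)

variable {M} in
theorem io_coe (hM : 0 < M) (x : gr (shf F M c) hF') :
    (io F hF c hF' hM x : AddMonoidAlgebra A (ℕ × ℤ))
      = ph (A := A) M c (x : AddMonoidAlgebra A (ℕ × ℕ)) := rfl

variable {M} in
theorem io_inj (hM : 0 < M) : Function.Injective (io F hF c hF' hM) := by
  intro x y h
  apply Subtype.ext
  have h1 := congrArg (fun z : gr (ful F) hF => (z : AddMonoidAlgebra A (ℕ × ℤ))) h
  simp only [io_coe] at h1
  exact AddMonoidAlgebra.mapDomain_injective (jj_inj c hM) h1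

variable {M} in
theorem io_sp (hM : 0 < M) (x : gr (shf F M c) hF') :
    Sp (fun p => M ∣ p.1 ∧ 0 ≤ tt M c p) (io F hF c hF' hM x) := by
  intro p hp
  rw [io_coe] at hp
  have h1 : p ∈ Set.range (jj M c) := by
    by_contra h
    exact hp (ph_coeff' M c _ p h)
  obtain ⟨q, rfl⟩ := h1
  exact ⟨jj_dvd M c q, tt_jj c hM q⟩

variable {M} in
theorem io_surj (hM : 0 < M) (s : gr (ful F) hF)
    (hs : Sp (fun p => M ∣ p.1 ∧ 0 ≤ tt M c p) s) : ∃ s', s = io F hF c hF' hM s' := by
  refine ⟨⟨AddMonoidAlgebra.comapDomain (jj M c) (jj_inj c hM) (s : AddMonoidAlgebra A (ℕ × ℤ)), ?_⟩,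
    ?_⟩
  · intro p
    rw [AddMonoidAlgebra.coeff_comapDomain, Finsupp.comapDomain_apply]
    exact s.2 (jj M c p)
  · apply Subtype.ext
    rw [io_coe]
    symm
    refine AddMonoidAlgebra.mapDomain_comapDomain ?_ (jj_inj c hM)
    intro p hp
    have h1 := hs p (Finsupp.mem_support_iff.1 hp)
    exact mem_range_jj c hM h1.1 h1.2

/-- Weight at least `q`. -/
def VV (q : ℤ) (x : gr (ful F) hF) : Prop := Sp (fun p => M ∣ p.1 ∧ q ≤ tt M c p) x

/-- Weight equal to `q`. -/
def EE (q : ℤ) (x : gr (ful F) hF) : Prop := Sp (fun p => M ∣ p.1 ∧ tt M c p = q) x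

variable {F hF M c}

theorem VV_mul {q q' : ℤ} {x y : gr (ful F) hF} (hx : VV F hF M c q x) (hy : VV F hF M c q' y) :
    VV F hF M c (q + q') (x * y) := by
  refine Sp_mul ?_ hx hy
  intro p p' h h'
  refine ⟨dvd_add h.1 h'.1, ?_⟩
  rw [tt_add c h.1]
  linarith [h.2, h'.2]

theorem EE_mul {q q' : ℤ} {x y : gr (ful F) hF} (hx : EE F hF M c q x) (hy : EE F hF M c q' y) :
    EE F hF M c (q + q') (x * y) := by
  refine Sp_mul ?_ hx hy
  intro p p' h h'
  refine ⟨dvd_add h.1 h'.1, ?_⟩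
  rw [tt_add c h.1, h.2, h'.2]

theorem VV_mono {q q' : ℤ} (h : q' ≤ q) {x : gr (ful F) hF} (hx : VV F hF M c q x) :
    VV F hF M c q' x :=
  Sp_mono (fun _ hp => ⟨hp.1, h.trans hp.2⟩) hx

theorem EE_VV {q : ℤ} {x : gr (ful F) hF} (hx : EE F hF M c q x) : VV F hF M c q x :=
  Sp_mono (fun _ hp => ⟨hp.1, hp.2.ge⟩) hx

theorem VV_pow {q : ℤ} {x : gr (ful F) hF} (hx : VV F hF M c q x) (n : ℕ) :
    VV F hF M c (n * q) (x ^ n) := by
  induction n with
  | zero =>
    rw [pow_zero, Nat.cast_zero, zero_mul]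
    exact Sp_one ⟨dvd_zero M, by simp [tt]⟩
  | succ n ih =>
    rw [pow_succ]
    have := VV_mul ih hx
    have e : ((n + 1 : ℕ) : ℤ) * q = n * q + q := by push_cast; ring
    rwa [e]

theorem EE_pow {q : ℤ} {x : gr (ful F) hF} (hx : EE F hF M c q x) (n : ℕ) :
    EE F hF M c (n * q) (x ^ n) := by
  induction n with
  | zero =>
    rw [pow_zero, Nat.cast_zero, zero_mul]
    exact Sp_one ⟨dvd_zero M, by simp [tt]⟩
  | succ n ih =>
    rw [pow_succ]
    have := EE_mul ih hx
    have e : ((n + 1 : ℕ) : ℤ) * q = n * q + q := by push_cast; ring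
    rwa [e]

theorem key_pow {q : ℤ} {s r : gr (ful F) hF} (hs : VV F hF M c q s) (hr : EE F hF M c q r)
    (hd : VV F hF M c (q + 1) (s - r)) (n : ℕ) : VV F hF M c (n * q + 1) (s ^ n - r ^ n) := by
  induction n with
  | zero =>
    rw [pow_zero, pow_zero, sub_self]
    exact Sp_zero _
  | succ n ih =>
    have e : s ^ (n + 1) - r ^ (n + 1) = s * (s ^ n - r ^ n) + r ^ n * (s - r) := by ring
    rw [e]
    have h1 := VV_mul hs ih
    have h2 := VV_mul (EE_VV (EE_pow hr n)) hd
    have e1 : ((n + 1 : ℕ) : ℤ) * q + 1 = q + (n * q + 1) := by push_cast; ring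
    have e2 : (n : ℤ) * q + (q + 1) = q + (n * q + 1) := by ring
    rw [e2] at h2
    rw [e1]
    exact Sp_add h1 h2

end Main

end

theorem hZSU (hZCR : StZCR.{u, u}) : StZSU.{u} := by
  intro A _ _ F hF M c hM hF' hdom hic
  have hdom' : IsDomain (gr (shf F M c) hF') := (io_inj F hF c hF' hM).isDomain _
  refine ⟨hdom', ?_⟩
  refine hZCR (io F hF c hF' hM) (io_inj F hF c hF' hM) hic ?_
  rintro s ⟨b, hb, a, hab⟩ ⟨P, hP, hPs⟩
  have hb0 : io F hF c hF' hM b ≠ 0 := by
    intro h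
    apply hb
    apply io_inj F hF c hF' hM
    rw [h, map_zero]
  -- first step
  have hs1 : Sp (fun p => M ∣ p.1) s := by
    have h1 : Sp (fun p : ℕ × ℤ => ¬ M ∣ p.1) (s - filt (fun p => M ∣ p.1) s) :=
      filt_sub_sp (fun p : ℕ × ℤ => M ∣ p.1) s
    have hbs : Sp (fun p : ℕ × ℤ => M ∣ p.1) (io F hF c hF' hM b) :=
      Sp_mono (fun _ hp => hp.1) (io_sp F hF c hF' hM b)
    have has : Sp (fun p : ℕ × ℤ => M ∣ p.1) (io F hF c hF' hM a) :=
      Sp_mono (fun _ hp => hp.1) (io_sp F hF c hF' hM a)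
    have h2 : io F hF c hF' hM b * (s - filt (fun p => M ∣ p.1) s) = 0 := by
      refine Sp_disj (T := fun p : ℕ × ℤ => ¬ M ∣ p.1) (T' := fun p : ℕ × ℤ => M ∣ p.1)
        (Sp_mul ?_ hbs h1) ?_ (fun p h h' => h h')
      · intro p q hp hq hpq
        exact hq ((Nat.dvd_add_right hp).1 hpq)
      · rw [mul_sub, hab]
        refine Sp_sub has (Sp_mul ?_ hbs (filt_sp _ s))
        intro p q hp hq
        exact dvd_add hp hq
    have h3 : s - filt (fun p => M ∣ p.1) s = 0 := (mul_eq_zero.1 h2).resolve_left hb0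
    rw [sub_eq_zero.1 h3]
    exact filt_sp _ s
  -- second step
  apply io_surj F hF c hF' hM
  by_cases hs0 : s = 0
  · rw [hs0]; exact Sp_zero _
  have hne : (s : AddMonoidAlgebra A (ℕ × ℤ)).coeff.support.Nonempty := by
    rw [Finset.nonempty_iff_ne_empty, Ne, Finsupp.support_eq_empty]
    intro h
    apply hs0
    apply Subtype.ext
    exact AddMonoidAlgebra.coeff_eq_zero.1 h
  obtain ⟨p0, hp0, hmin⟩ := Finset.exists_min_image _ (tt M c) hne
  set m := tt M c p0 with hm
  have hVs : VV F hF M c m s := fun p hp => ⟨hs1 p hp, hmin p (Finsupp.mem_support_iff.2 hp)⟩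
  have hm0 : 0 ≤ m := by
    by_contra hneg
    push Not at hneg
    have hE : EE F hF M c m (filt (fun p => tt M c p = m) s) := by
      intro p hp
      exact ⟨filt_sp' _ _ hs1 p hp, filt_sp (fun p => tt M c p = m) s p hp⟩
    have hD : VV F hF M c (m + 1) (s - filt (fun p => tt M c p = m) s) := by
      intro p hp
      have h1 := filt_sub_sp (fun p => tt M c p = m) s p hp
      have h2 : (s : AddMonoidAlgebra A (ℕ × ℤ)).coeff p ≠ 0 := by
        classical
        intro h
        apply hp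
        rw [AddSubgroupClass.coe_sub, AddMonoidAlgebra.coeff_sub, Finsupp.sub_apply, filt_coeff, h,
          ite_self, sub_zero]
      have h3 := hVs p h2
      refine ⟨h3.1, ?_⟩
      have h4 : m ≠ tt M c p := fun h => h1 h.symm
      have h5 := lt_of_le_of_ne h3.2 h4
      omega
    set r := filt (fun p => tt M c p = m) s with hr
    set d := P.natDegree with hd
    have hpow : VV F hF M c (d * m + 1) (s ^ d) := by
      rw [Polynomial.eval₂_eq_sum_range, Finset.sum_range_succ, ← hd] at hPs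
      have h1 : P.coeff d = 1 := hP
      rw [h1, map_one, one_mul] at hPs
      have h2 : s ^ d = -∑ i ∈ Finset.range d, io F hF c hF' hM (P.coeff i) * s ^ i :=
        eq_neg_of_add_eq_zero_right hPs
      rw [h2]
      apply Sp_neg
      apply Sp_sum
      intro i hi
      have h3 := VV_mul (io_sp F hF c hF' hM (P.coeff i)) (VV_pow hVs i)
      refine VV_mono ?_ h3
      have h4 : (i : ℤ) + 1 ≤ d := by exact_mod_cast Finset.mem_range.1 hi
      nlinarith
    have h6 : r ^ d = 0 := by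
      have h7 := Sp_sub hpow (key_pow hVs hE hD d)
      rw [sub_sub_cancel] at h7
      refine Sp_disj h7 (EE_pow hE d) ?_
      intro p h8 h9
      have := h8.2
      rw [h9.2] at this
      linarith
    have h7 : r = 0 := eq_zero_of_pow_eq_zero h6
    have h8 : (r : AddMonoidAlgebra A (ℕ × ℤ)).coeff p0
        = (s : AddMonoidAlgebra A (ℕ × ℤ)).coeff p0 := by
      classical
      rw [hr, filt_coeff, if_pos rfl]
    apply Finsupp.mem_support_iff.1 hp0
    rw [← h8, h7]
    rfl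
  exact Sp_mono (fun _ hp => ⟨hp.1, hm0.trans hp.2⟩) hVs

end Pool.Agent.Helper34.KPZ
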